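import Pool.Agent.U770.MH.Conj

/-!
# MP_216eb3_nt: the moduli height is comparable with the minimal height in the orbit

All varieties are over `Qbar`, an algebraic closure of `ℚ`, and are given by their `Qbar`-points. A
quasi-projective variety is a locally closed subset of a projective space (`IsQuasiProjective`), a
morphism is locally given by forms of the same degree without common zero (`IsMorphism`), `ht` is the
absolute logarithmic Weil height, and an ample height (`IsAmpleHeight`) is, up to a bounded function,
a positive multiple of the pullback of `ht` under an embedding in a projective space.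

Q1. Let `G` be a group acting on `X` and let `π : X → Y` be a surjective morphism whose fibres are
the orbits of `G`; every geometric quotient has these properties (the algebraicity of the action
and the other properties of a geometric quotient are not needed). Then
`h_Y (π x) ≍ inf_g h_X (g x)` for all ample heights: the answer is yes.

Q2. `Rat d ⊂ ℙ ^ (2 d + 1)` is the space of rational maps of degree `d`, and `conj φ f` is
`φ⁻¹ ∘ f ∘ φ`. For every quasi-projective variety `M` in a projective space and every surjective
morphism `π : Rat d → M` whose fibres are the conjugacy classes (the moduli space `M_d` with a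
projective embedding) one has `ht (π f) ≍ inf_φ ht (conj φ f)`: the answer is yes.

Proof. The inequality `h_Y ∘ π ≤ c h_X + C` is elementary. For the other one, let `V` be an irreducible
closed subset of `Y`. The generic fibre of `π` over `V` has a point over a finite extension of the
function field of `V`; its coordinates are integral over the ring of an affine open subset `V'` of
`V`. So it specializes to a point in every fibre over `V'`, whose coordinates are roots of
polynomials with coefficients that are regular functions on `V'`; its height is at most
`c h_Y + C`. Noetherian induction on the closed subsets of `Y` gives such a point in every fibre.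
-/

set_option autoImplicit false

universe u

namespace Pool.Agent.Results.MP_216eb3_nt.MinimalHeights

open Pool.Agent.Helper259.RatDef Pool.Agent.U770.MH

/-- `conj φ f` is the unique point `f'` of `Rat d` with `f' = φ⁻¹ ∘ f ∘ φ` on the projective line, for a
linear automorphism `φ` of `Qbar ^ 2`. -/
noncomputable def conj {d : ℕ} (φ : GL2) (f : Rat d) : Rat d := (existsUnique_conj φ f).choose

theorem conj_spec {d : ℕ} (φ : GL2) (f : Rat d) : IsConjBy φ f (conj φ f) :=
  (existsUnique_conj φ f).choose_spec.1

/-- the standard height of a quasi-projective variety is an ample height -/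
theorem isAmpleHeight_ht {n : ℕ} {X : Set (PSpace n)} (hX : IsQuasiProjective X) :
    IsAmpleHeight (fun x : X => ht (x : PSpace n)) := by
  have hid : IsMorphism (Equiv.refl X) := by
    rw [isMorphism_iff]
    intro P
    refine ⟨Set.univ, ⟨{1}, ?_, ?_⟩, trivial, 1, fun i => MvPolynomial.X i,
      fun i => MvPolynomial.isHomogeneous_X _ i, fun Q _ => ?_⟩
    · rintro F rfl
      exact ⟨0, MvPolynomial.isHomogeneous_one _ _⟩
    · ext Q
      simp
    · have h1 : (fun i => MvPolynomial.eval (Q : PSpace n).rep
          (MvPolynomial.X i : MvPolynomial (Fin (n + 1)) _)) = (Q : PSpace n).rep := by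
        funext i
        exact MvPolynomial.eval_X _
      refine ⟨by rw [h1]; exact (Q : PSpace n).rep_nonzero, ?_⟩
      simp only [h1]
      exact (Projectivization.mk_rep _).symm
  exact ⟨n, X, Equiv.refl X, hX, hid, hid, 1, 0, one_pos, fun x => by simp⟩

/-- **Moduli heights are comparable with minimal heights in orbits** (Q1), in particular in the case
of rational maps of the projective line up to conjugation (Q2). -/
theorem result :
    (∀ (n m : ℕ) (X : Set (PSpace n)) (Y : Set (PSpace m)), IsQuasiProjective X →
      IsQuasiProjective Y → ∀ (G : Type u) [Group G] [MulAction G X] (π : X → Y), IsMorphism π →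
      Function.Surjective π → (∀ x x' : X, π x = π x' ↔ ∃ g : G, g • x = x') →
      ∀ (hX : X → ℝ) (hY : Y → ℝ), IsAmpleHeight hX → IsAmpleHeight hY →
        Comparable (fun x => hY (π x)) (fun x => ⨅ g : G, hX (g • x))) ∧
    (∀ (d : ℕ), 2 ≤ d → ∀ (k : ℕ) (M : Set (PSpace k)) (π : Rat d → M), IsQuasiProjective M →
      IsMorphism π → Function.Surjective π →
      (∀ f f' : Rat d, π f = π f' ↔ ∃ φ : GL2, conj φ f = f') →
        Comparable (fun f : Rat d => ht (π f : PSpace k))
          (fun f : Rat d => ⨅ φ : GL2, ht (conj φ f : PSpace (2 * d + 1)))) := by
  refine ⟨?_, ?_⟩
  · intro n m X Y _ _ G _ _ π hπ _ horb hX hY hhX hhY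
    exact fibre_inf π hπ hX hY hhX hhY (fun x (g : G) => g • x) horb
  · intro d hd k M π hM hπ _ horb
    exact fibre_inf π hπ _ _ (isAmpleHeight_ht (Rat_quasiProjective (by omega)))
      (isAmpleHeight_ht hM) (fun f φ => conj φ f) horb

end Pool.Agent.Results.MP_216eb3_nt.MinimalHeights
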